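import Pool.Agent.helper22.TG.SW4c
import Pool.Agent.helper99.TG.SW4A

/-!
# GNU project (MP_d11331_al), modules sw:4b and sw:4c, final form
-/

namespace Pool.Agent.helper74.TG

/-- sw:4b (Estermann). -/
theorem estermann : ∃ (c : ℝ) (E : ℕ), 0 < c ∧ ∀ (q₁ q₂ : ℕ) [NeZero q₁] [NeZero q₂], 2 ≤ q₁ →
    2 ≤ q₂ → ∀ (χ₁ : DirichletCharacter ℂ q₁) (χ₂ : DirichletCharacter ℂ q₂), χ₁ ^ 2 = 1 →
    χ₂ ^ 2 = 1 → χ₁ ≠ 1 → χ₂ ≠ 1 →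
    DirichletCharacter.changeLevel (dvd_mul_right q₁ q₂) χ₁ *
        DirichletCharacter.changeLevel (dvd_mul_left q₂ q₁) χ₂ ≠ 1 →
    ∀ β : ℝ, 7 / 8 < β → β < 1 → (FS χ₁ χ₂ β).re ≤ 0 →
    c * (1 - β) / ((q₁ : ℝ) * q₂) ^ (E * (1 - β)) ≤ ‖lamS χ₁ χ₂‖ :=
  estermann_of LF_disc

/-- sw:4c: Siegel's theorem. -/
theorem siegel (k : ℕ) (hk : 0 < k) : ∃ c : ℝ, 0 < c ∧ ∀ (q : ℕ) [NeZero q], 2 ≤ q →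
    ∀ χ : DirichletCharacter ℂ q, χ ≠ 1 → χ ^ 2 = 1 →
    c / (q : ℝ) ^ (1 / (k : ℝ)) ≤ ‖DirichletCharacter.LFunction χ 1‖ :=
  siegel_of estermann k hk

end Pool.Agent.helper74.TG
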