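import Pool.Agent.helper22.TG.SW4b
import Pool.Agent.helper17.TG.SW1

/-!
# GNU project (MP_d11331_al), module sw:4c (Siegel), part 1: real characters on the real axis
-/

namespace Pool.Agent.helper74.TG.h22

open Complex LSeries

open scoped ComplexOrder ComplexConjugate

set_option linter.unusedSectionVars false

variable {q : ℕ} [NeZero q] {χ : DirichletCharacter ℂ q}

theorem conj_val (h : χ ^ 2 = 1) (n : ℕ) : conj (χ n) = χ n := by
  rcases MulChar.isQuadratic_iff_sq_eq_one.mpr h (n : ZMod q) with h' | h' | h' <;> rw [h'] <;> simp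

theorem conj_LSeries' {a : ℕ → ℂ} (h : ∀ n, conj (a n) = a n) (s : ℂ) :
    conj (LSeries a (conj s)) = LSeries a s := by
  unfold LSeries
  rw [conj_tsum]
  refine tsum_congr fun n => ?_
  rcases eq_or_ne n 0 with rfl | hn
  · simp
  · rw [LSeries.term_of_ne_zero hn, LSeries.term_of_ne_zero hn, map_div₀, h]
    congr 1
    have hn' : ((n : ℂ)).arg ≠ Real.pi := by
      rw [Complex.natCast_arg]
      exact Real.pi_pos.ne
    rw [Complex.cpow_conj _ _ hn', Complex.conj_conj, Complex.conj_natCast]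

theorem conj_LSeries (h : χ ^ 2 = 1) (s : ℂ) : conj (LSeries (χ ·) (conj s)) = LSeries (χ ·) s :=
  conj_LSeries' (fun n => conj_val h n) s

theorem conj_LFunction (hne : χ ≠ 1) (h : χ ^ 2 = 1) (s : ℂ) :
    conj (DirichletCharacter.LFunction χ (conj s)) = DirichletCharacter.LFunction χ s := by
  have hd := DirichletCharacter.differentiable_LFunction hne
  set f : ℂ → ℂ := fun s => conj (DirichletCharacter.LFunction χ (conj s)) with hf
  have hfd : Differentiable ℂ f := by
    intro z
    have h1 : DifferentiableAt ℂ (conj ∘ DirichletCharacter.LFunction χ ∘ conj) (conj (conj z)) :=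
      DifferentiableAt.conj_conj (hd (conj z))
    rw [Complex.conj_conj] at h1
    exact h1
  have h2 : AnalyticOnNhd ℂ f Set.univ := hfd.differentiableOn.analyticOnNhd isOpen_univ
  have h3 : AnalyticOnNhd ℂ (DirichletCharacter.LFunction χ) Set.univ :=
    hd.differentiableOn.analyticOnNhd isOpen_univ
  have h4 : f =ᶠ[nhds 2] DirichletCharacter.LFunction χ := by
    have hopen : {s : ℂ | 1 < s.re} ∈ nhds (2 : ℂ) :=
      (isOpen_lt continuous_const Complex.continuous_re).mem_nhds (by simp)
    filter_upwards [hopen] with s hs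
    have hs' : 1 < (conj s).re := by simpa using hs
    rw [hf]
    simp only
    rw [DirichletCharacter.LFunction_eq_LSeries χ hs', DirichletCharacter.LFunction_eq_LSeries χ hs,
      conj_LSeries h]
  have h5 := h2.eq_of_eventuallyEq h3 h4
  exact congrFun h5 s

theorem L_im (hne : χ ≠ 1) (h : χ ^ 2 = 1) (x : ℝ) :
    (DirichletCharacter.LFunction χ x).im = 0 := by
  have h1 := conj_LFunction hne h (x : ℂ)
  rw [Complex.conj_ofReal] at h1
  exact Complex.conj_eq_iff_im.1 h1

theorem L_two_pos (h : χ ^ 2 = 1) :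
    0 < (DirichletCharacter.LFunction χ ((2 : ℝ) : ℂ)).re := by
  have h1 : (1 : ℝ) < ((2 : ℝ) : ℂ).re := by simp
  have h2 := zetaMul_LSeries χ h1
  have hab : abscissaOfAbsConv (fun n => χ.zetaMul n) < ((2 : ℝ) : EReal) := by
    have h3 : abscissaOfAbsConv (fun n => χ.zetaMul n) ≤ ((1 : ℝ) : EReal) :=
      abscissaOfAbsConv_le_of_forall_lt_LSeriesSummable fun y hy =>
        χ.LSeriesSummable_zetaMul (by simpa using hy)
    exact lt_of_le_of_lt h3 (by exact_mod_cast (by norm_num : (1 : ℝ) < 2))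
  have h3 : 0 < LSeries (fun n => χ.zetaMul n) ((2 : ℝ) : ℂ) :=
    LSeries.positive (fun n => DirichletCharacter.zetaMul_nonneg h n)
      (by
        show (0 : ℂ) < χ.zetaMul 1
        rw [χ.isMultiplicative_zetaMul.map_one]
        exact zero_lt_one) hab
  rw [h2] at h3
  have h4 : riemannZeta ((2 : ℝ) : ℂ) = ((Real.pi ^ 2 / 6 : ℝ) : ℂ) := by
    push_cast
    rw [riemannZeta_two]
  rw [h4] at h3
  have h5 := (Complex.lt_def.1 h3).1
  rw [Complex.re_ofReal_mul, Complex.zero_re] at h5
  have h6 : 0 < Real.pi ^ 2 / 6 := by positivity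
  exact (mul_pos_iff_of_pos_left h6).1 h5

/-- Positivity to the right of the last zero. -/
theorem L_pos (hne : χ ≠ 1) (h : χ ^ 2 = 1) {x₀ : ℝ}
    (hz : ∀ x : ℝ, x₀ < x → x < 1 → DirichletCharacter.LFunction χ x ≠ 0) {x : ℝ} (hx : x₀ < x)
    (hx2 : x ≤ 2) : 0 < (DirichletCharacter.LFunction χ x).re := by
  have hd := DirichletCharacter.differentiable_LFunction hne
  have hcont : Continuous fun x : ℝ => (DirichletCharacter.LFunction χ (x : ℂ)).re :=
    Complex.continuous_re.comp (hd.continuous.comp Complex.continuous_ofReal)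
  by_contra hneg
  push Not at hneg
  obtain ⟨y, hy, hy0⟩ := intermediate_value_Icc hx2 hcont.continuousOn
    (show (0 : ℝ) ∈ Set.Icc _ _ from ⟨hneg, (L_two_pos h).le⟩)
  have hy0' : (DirichletCharacter.LFunction χ (y : ℂ)).re = 0 := hy0
  have hzero : DirichletCharacter.LFunction χ (y : ℂ) = 0 :=
    Complex.ext (by simpa using hy0') (by simpa using L_im hne h y)
  rcases lt_or_ge y 1 with hy1 | hy1
  · exact hz y (lt_of_lt_of_le hx hy.1) hy1 hzero
  · exact DirichletCharacter.LFunction_ne_zero_of_one_le_re χ (.inl hne) (by simpa using hy1) hzero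

/-- The Riemann zeta function is negative to the left of `1`. -/
theorem zeta_left : ∃ δ : ℝ, 0 < δ ∧ ∀ x : ℝ, 1 - δ < x → x < 1 →
    (riemannZeta x).re < 0 ∧ (riemannZeta x).im = 0 := by
  have h1 : ∀ᶠ s : ℂ in nhdsWithin 1 {1}ᶜ, 0 < ((s - 1) * riemannZeta s).re := by
    have h2 := (Complex.continuous_re.tendsto _).comp riemannZeta_residue_one
    exact h2.eventually (lt_mem_nhds (by simp))
  rw [eventually_nhdsWithin_iff, Metric.eventually_nhds_iff] at h1
  obtain ⟨δ, hδ, h1⟩ := h1
  refine ⟨δ, hδ, fun x hx1 hx2 => ?_⟩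
  have hne : (x : ℂ) ≠ 1 := by
    intro h
    have : x = 1 := by exact_mod_cast h
    linarith
  constructor
  · have h3 := h1 (y := (x : ℂ)) (by
      rw [Complex.dist_eq, ← Complex.ofReal_one, ← Complex.ofReal_sub, Complex.norm_real,
        Real.norm_eq_abs, abs_lt]
      constructor <;> linarith) hne
    have h4 : ((x : ℂ) - 1) * riemannZeta x = ((x - 1 : ℝ) : ℂ) * riemannZeta x := by push_cast; rfl
    rw [h4, Complex.re_ofReal_mul] at h3
    nlinarith
  · have hf : Differentiable ℂ fun s => conj (zt (conj s)) := by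
      intro z
      have h1 : DifferentiableAt ℂ (conj ∘ zt ∘ conj) (conj (conj z)) :=
        DifferentiableAt.conj_conj (zt_diff (conj z))
      rw [Complex.conj_conj] at h1
      exact h1
    have h2 : AnalyticOnNhd ℂ (fun s => conj (zt (conj s))) Set.univ :=
      hf.differentiableOn.analyticOnNhd isOpen_univ
    have h3 : AnalyticOnNhd ℂ zt Set.univ := zt_diff.differentiableOn.analyticOnNhd isOpen_univ
    have h4 : (fun s => conj (zt (conj s))) =ᶠ[nhds 2] zt := by
      have hopen : {s : ℂ | 1 < s.re} ∈ nhds (2 : ℂ) :=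
        (isOpen_lt continuous_const Complex.continuous_re).mem_nhds (by simp)
      filter_upwards [hopen] with s hs
      have hs' : 1 < (conj s).re := by simpa using hs
      have hs1 : s ≠ 1 := by rintro rfl; simp at hs
      have hs1' : conj s ≠ 1 := by
        intro h
        rw [h] at hs'
        simp at hs'
      rw [zt_of_ne hs1, zt_of_ne hs1', map_mul, map_sub, Complex.conj_conj, map_one,
        ← LSeries_one_eq_riemannZeta hs, ← LSeries_one_eq_riemannZeta hs', conj_LSeries']
      intro n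
      simp
    have h5 := congrFun (h2.eq_of_eventuallyEq h3 h4) (x : ℂ)
    rw [Complex.conj_ofReal] at h5
    have h6 : (zt (x : ℂ)).im = 0 := Complex.conj_eq_iff_im.1 h5
    rw [zt_of_ne hne] at h6
    have h4 : ((x : ℂ) - 1) * riemannZeta x = ((x - 1 : ℝ) : ℂ) * riemannZeta x := by push_cast; rfl
    rw [h4, Complex.im_ofReal_mul] at h6
    rcases mul_eq_zero.1 h6 with h7 | h7
    · linarith
    · exact h7

/-- Upper bound at `1`. -/
theorem L_one_upper : ∃ C : ℝ, 0 < C ∧ ∀ (q : ℕ) [NeZero q], 2 ≤ q →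
    ∀ χ : DirichletCharacter ℂ q, χ ≠ 1 →
      ‖DirichletCharacter.LFunction χ 1‖ ≤ C * (1 + Real.log q + Real.log 2) := by
  obtain ⟨C, hC, h⟩ := DD_bound_t 0
  refine ⟨C, hC, fun q _ hq χ hne => ?_⟩
  have hd := DirichletCharacter.differentiable_LFunction hne
  have hcont : Filter.Tendsto (fun x : ℝ => ‖DirichletCharacter.LFunction χ (x : ℂ)‖)
      (nhdsWithin 1 (Set.Ioi 1)) (nhds ‖DirichletCharacter.LFunction χ ((1 : ℝ) : ℂ)‖) :=
    ((continuous_norm.comp (hd.continuous.comp Complex.continuous_ofReal)).tendsto 1).mono_left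
      nhdsWithin_le_nhds
  rw [Complex.ofReal_one] at hcont
  refine le_of_tendsto hcont ?_
  have hev : ∀ᶠ x : ℝ in nhdsWithin 1 (Set.Ioi 1), x ≤ 2 :=
    (eventually_le_nhds (by norm_num : (1 : ℝ) < 2)).filter_mono nhdsWithin_le_nhds
  filter_upwards [self_mem_nhdsWithin, hev] with x hx hx2
  have hx1 : 1 < ((x : ℂ)).re := by simpa using hx
  have h1 := h q hq χ hne x hx1 (by simpa using hx2)
  have h2 : Pool.Agent.helper39.MT.DD χ 0 (x : ℂ) = DirichletCharacter.LFunction χ (x : ℂ) := by
    rw [DirichletCharacter.LFunction_eq_LSeries χ hx1, Pool.Agent.helper39.MT.DD]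
    simp
  rw [h2] at h1
  have h3 : ll q (x : ℂ) = 1 + Real.log q + Real.log 2 := by
    rw [ll]; simp
  rw [h3] at h1
  simpa using h1

end Pool.Agent.helper74.TG.h22
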