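import Mathlib

/-!
# GNU project (MP_d11331_al), module sw:4b, part A: the complex analytic core of Estermann's proof
-/

namespace Pool.Agent.helper74.TG.h22

open Complex

open scoped ComplexOrder

/-- Estermann's argument for an abstract Dirichlet series with nonnegative coefficients. -/
theorem est_abstract (a : ℕ → ℂ) (ha : 0 ≤ a) (ha1 : a 1 = 1)
    (hab : LSeries.abscissaOfAbsConv a ≤ 1) (G : ℂ → ℂ) (hG : Differentiable ℂ G)
    (hF : ∀ s : ℂ, 1 < s.re → LSeries a s = G s / (s - 1)) (B : ℝ)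
    (hB : ∀ s : ℂ, ‖s - 2‖ ≤ 3 / 2 → ‖G s‖ ≤ B) (β : ℝ) (hβ1 : 7 / 8 < β) (hβ2 : β < 1)
    (hneg : (G β / (β - 1)).re ≤ 0) (M : ℕ) :
    (1 - 16 * B * (3 / 4) ^ M) * (1 - β) ≤ ‖G 1‖ * (2 - β) ^ M := by
  have hab2 : LSeries.abscissaOfAbsConv a < (2 : ℝ) :=
    lt_of_le_of_lt hab (by exact_mod_cast (by norm_num : (1 : ℝ) < 2))
  have hB0 : 0 ≤ B := (norm_nonneg _).trans (hB 2 (by norm_num))
  set H := dslope G 1 with hH
  have hHd : Differentiable ℂ H := by
    rw [← differentiableOn_univ]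
    exact (Complex.differentiableOn_dslope Filter.univ_mem).2 hG.differentiableOn
  have hHs : ∀ s : ℂ, s ≠ 1 → H s = (G s - G 1) / (s - 1) := by
    intro s hs
    rw [hH, dslope_of_ne _ hs, slope_def_field]
  -- bound on the sphere
  have hsph : ∀ z ∈ Metric.sphere (2 : ℂ) (3 / 2), ‖H z‖ ≤ 4 * B := by
    intro z hz
    rw [mem_sphere_iff_norm] at hz
    have h1 : 1 / 2 ≤ ‖z - 1‖ := by
      have : ‖z - 2‖ ≤ ‖z - 1‖ + 1 := by
        calc ‖z - 2‖ = ‖(z - 1) - 1‖ := by ring_nf
          _ ≤ ‖z - 1‖ + ‖(1 : ℂ)‖ := norm_sub_le _ _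
          _ = ‖z - 1‖ + 1 := by rw [norm_one]
      linarith
    have hz1 : z ≠ 1 := by
      rintro rfl
      rw [sub_self, norm_zero] at h1
      norm_num at h1
    rw [hHs z hz1, norm_div]
    have h2 : ‖G z - G 1‖ ≤ 2 * B := by
      calc ‖G z - G 1‖ ≤ ‖G z‖ + ‖G 1‖ := norm_sub_le _ _
        _ ≤ B + B := add_le_add (hB z hz.le) (hB 1 (by norm_num))
        _ = 2 * B := by ring
    rw [div_le_iff₀ (by linarith)]
    nlinarith
  have hcoef : ∀ n : ℕ, ‖iteratedDeriv n H 2‖ ≤ n.factorial * (4 * B) / (3 / 2) ^ n := fun n =>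
    Complex.norm_iteratedDeriv_le_of_forall_mem_sphere_norm_le n (by norm_num)
      hHd.diffContOnCl hsph
  -- the coefficients of the Dirichlet series
  have hder : ∀ n : ℕ, (-1 : ℂ) ^ n * iteratedDeriv n (LSeries a) 2
      = n.factorial * G 1 + (-1) ^ n * iteratedDeriv n H 2 := by
    intro n
    have hev : H =ᶠ[nhds 2] fun s => LSeries a s - G 1 * (1 * s - 1)⁻¹ := by
      have hopen : {s : ℂ | 1 < s.re} ∈ nhds (2 : ℂ) :=
        (isOpen_lt continuous_const Complex.continuous_re).mem_nhds (by simp)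
      filter_upwards [hopen] with s hs
      have hs1 : s ≠ 1 := by
        rintro rfl
        simp at hs
      rw [hHs s hs1, hF s hs, sub_div, one_mul, div_eq_mul_inv (G 1)]
    rw [hev.iteratedDeriv_eq n]
    have hc1 : ContDiffAt ℂ n (LSeries a) 2 := by
      have := LSeries_analyticOnNhd a
      have h2 : AnalyticAt ℂ (LSeries a) 2 := this 2 (by
        show LSeries.abscissaOfAbsConv a < ((2 : ℂ).re : EReal)
        simpa using hab2)
      exact h2.contDiffAt
    have hc2 : ContDiffAt ℂ n (fun s : ℂ => G 1 * (1 * s - 1)⁻¹) 2 := by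
      apply ContDiffAt.mul contDiffAt_const
      apply ContDiffAt.inv
      · fun_prop
      · norm_num
    have h3 : iteratedDeriv n (fun s => LSeries a s - G 1 * (1 * s - 1)⁻¹) 2
        = iteratedDeriv n (LSeries a) 2 - iteratedDeriv n (fun s : ℂ => G 1 * (1 * s - 1)⁻¹) 2 :=
      iteratedDeriv_sub hc1 hc2
    have h4 : iteratedDeriv n (fun s : ℂ => G 1 * (1 * s - 1)⁻¹) 2
        = G 1 * ((-1) ^ n * n.factorial) := by
      rw [iteratedDeriv_const_mul_field, iteratedDeriv_eq_iterate, iter_deriv_inv_linear_sub]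
      have h5 : (1 * (2 : ℂ) - 1) = 1 := by norm_num
      show G 1 * ((-1) ^ n * (n.factorial : ℂ) * 1 ^ n * (1 * (2 : ℂ) - 1) ^ (-1 - (n : ℤ))) = _
      rw [h5, one_zpow, one_pow]
      ring
    rw [h3, h4]
    have h6 : ((-1 : ℂ) ^ n) * (-1) ^ n = 1 := by
      rw [← mul_pow]; norm_num
    linear_combination ((n.factorial : ℂ) * G 1) * h6
  have hpos : ∀ n : ℕ, 0 ≤ ((-1 : ℂ) ^ n * iteratedDeriv n (LSeries a) 2).re := by
    intro n
    have h1 := LSeries.iteratedDeriv_alternating ha hab2 n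
    have h2 : (0 : ℂ).re ≤ ((-1 : ℂ) ^ n * iteratedDeriv n (LSeries a) ((2 : ℝ) : ℂ)).re :=
      (Complex.le_def.1 h1).1
    simpa using h2
  have hpos0 : 1 ≤ (LSeries a 2).re := by
    have hsum : LSeriesSummable a (2 : ℂ) := LSeriesSummable_of_abscissaOfAbsConv_lt_re (by
      simpa using hab2)
    have h1 : (LSeries a 2).re = ∑' n, (LSeries.term a 2 n).re := Complex.re_tsum hsum
    rw [h1]
    have h2 : ∀ n, 0 ≤ (LSeries.term a 2 n).re := by
      intro n
      have := LSeries.term_nonneg (ha n) 2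
      have h3 := (Complex.le_def.1 this).1
      simpa using h3
    have h3 : Summable fun n => (LSeries.term a 2 n).re := (Complex.hasSum_re hsum.hasSum).summable
    have h4 := h3.le_tsum 1 (fun n _ => h2 n)
    have h5 : (LSeries.term a 2 1).re = 1 := by
      rw [LSeries.term_of_ne_zero one_ne_zero, ha1]
      simp
    rw [h5] at h4
    exact h4
  -- the real Taylor coefficients
  set x : ℝ := 2 - β with hx
  have hx1 : 1 < x := by rw [hx]; linarith
  have hx2 : x < 9 / 8 := by rw [hx]; linarith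
  set u : ℕ → ℝ := fun n => ((n.factorial : ℂ)⁻¹ * ((-1) ^ n * iteratedDeriv n H 2)).re with hu
  have hunorm : ∀ n, |u n| ≤ 4 * B * (2 / 3) ^ n := by
    intro n
    calc |u n| ≤ ‖(n.factorial : ℂ)⁻¹ * ((-1) ^ n * iteratedDeriv n H 2)‖ :=
          Complex.abs_re_le_norm _
      _ = (n.factorial : ℝ)⁻¹ * ‖iteratedDeriv n H 2‖ := by
          rw [norm_mul, norm_mul, norm_inv, Complex.norm_natCast, norm_pow, norm_neg, norm_one,
            one_pow, one_mul]
      _ ≤ (n.factorial : ℝ)⁻¹ * (n.factorial * (4 * B) / (3 / 2) ^ n) :=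
          mul_le_mul_of_nonneg_left (hcoef n) (by positivity)
      _ = 4 * B * (2 / 3) ^ n := by
          have hn : (n.factorial : ℝ) ≠ 0 := by positivity
          have h1 : ((2 : ℝ) / 3) ^ n = ((3 / 2 : ℝ) ^ n)⁻¹ := by
            rw [← inv_pow]; norm_num
          rw [h1]
          field_simp
  have hulow : ∀ n, -(G 1).re ≤ u n := by
    intro n
    have h1 := hpos n
    rw [hder n] at h1
    have hn : (0 : ℝ) < n.factorial := by positivity
    have h2 : u n = (n.factorial : ℝ)⁻¹ * ((-1 : ℂ) ^ n * iteratedDeriv n H 2).re := by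
      rw [hu]
      simp only
      have h3 : ((n.factorial : ℂ)⁻¹ * ((-1) ^ n * iteratedDeriv n H 2))
          = (((n.factorial : ℝ)⁻¹ : ℝ) : ℂ) * ((-1) ^ n * iteratedDeriv n H 2) := by push_cast; rfl
      rw [h3, Complex.re_ofReal_mul]
    rw [h2]
    rw [Complex.add_re] at h1
    have h4 : ((n.factorial : ℂ) * G 1).re = n.factorial * (G 1).re := by
      have h3 : ((n.factorial : ℂ) * G 1) = (((n.factorial : ℝ) : ℝ) : ℂ) * G 1 := by push_cast; rfl
      rw [h3, Complex.re_ofReal_mul]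
    rw [h4] at h1
    have h5 : (n.factorial : ℝ) * (-(G 1).re) ≤ ((-1 : ℂ) ^ n * iteratedDeriv n H 2).re := by
      linarith
    calc -(G 1).re = (n.factorial : ℝ)⁻¹ * (n.factorial * (-(G 1).re)) := by
          rw [← mul_assoc, inv_mul_cancel₀ hn.ne', one_mul]
      _ ≤ _ := mul_le_mul_of_nonneg_left h5 (by positivity)
  have hulow0 : 1 - (G 1).re ≤ u 0 := by
    have h1 := hder 0
    simp only [pow_zero, one_mul, iteratedDeriv_zero, Nat.factorial_zero, Nat.cast_one] at h1
    have h2 : u 0 = (H 2).re := by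
      rw [hu]; simp
    rw [h2]
    have h3 := congrArg Complex.re h1
    rw [Complex.add_re] at h3
    linarith
  -- summation
  have hsum : HasSum (fun n => x ^ n * u n) (H β).re := by
    have h1 := Complex.hasSum_re (Complex.hasSum_taylorSeries_of_entire hHd 2 (β : ℂ))
    convert h1 using 1
    funext n
    rw [hu]
    simp only [smul_eq_mul]
    have h3 : ((n.factorial : ℂ)⁻¹ * (((β : ℂ) - 2) ^ n * iteratedDeriv n H 2))
        = ((x ^ n : ℝ) : ℂ) * ((n.factorial : ℂ)⁻¹ * ((-1) ^ n * iteratedDeriv n H 2)) := by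
      have h4 : ((β : ℂ) - 2) = (-1) * (x : ℂ) := by rw [hx]; push_cast; ring
      rw [h4, mul_pow]
      push_cast
      ring
    rw [h3, Complex.re_ofReal_mul]
  have hsplit := hsum.summable.sum_add_tsum_nat_add M
  rw [hsum.tsum_eq] at hsplit
  -- head
  have hhead : 1 - (G 1).re * ∑ n ∈ Finset.range M, x ^ n ≤
      ∑ n ∈ Finset.range M, x ^ n * u n ∨ M = 0 := by
    rcases Nat.eq_zero_or_pos M with h0 | h0
    · right; exact h0
    · left
      obtain ⟨M', rfl⟩ : ∃ M', M = M' + 1 := ⟨M - 1, by omega⟩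
      rw [Finset.sum_range_succ', Finset.sum_range_succ', mul_add]
      have h1 : ∀ n ∈ Finset.range M', -(G 1).re * x ^ (n + 1) ≤ x ^ (n + 1) * u (n + 1) := by
        intro n _
        have := mul_le_mul_of_nonneg_left (hulow (n + 1)) (by positivity : (0 : ℝ) ≤ x ^ (n + 1))
        linarith
      have h2 := Finset.sum_le_sum h1
      rw [← Finset.mul_sum] at h2
      simp only [pow_zero, mul_one, one_mul]
      linarith
  -- tail
  have hr : ∀ n : ℕ, -(4 * B * (3 / 4) ^ n) ≤ x ^ n * u n := by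
    intro n
    have h1 : |x ^ n * u n| ≤ 4 * B * (3 / 4) ^ n := by
      rw [abs_mul, abs_of_nonneg (by positivity : (0 : ℝ) ≤ x ^ n)]
      calc x ^ n * |u n| ≤ (9 / 8) ^ n * (4 * B * (2 / 3) ^ n) :=
            mul_le_mul (pow_le_pow_left₀ (by linarith) hx2.le _) (hunorm n) (abs_nonneg _)
              (by positivity)
        _ = 4 * B * (3 / 4) ^ n := by
            rw [mul_left_comm, ← mul_pow]; norm_num
    exact (abs_le.1 h1).1
  have htail : -(16 * B * (3 / 4) ^ M) ≤ ∑' n, x ^ (n + M) * u (n + M) := by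
    have hg : HasSum (fun n : ℕ => -(4 * B * (3 / 4 : ℝ) ^ (n + M))) (-(16 * B * (3 / 4) ^ M)) := by
      have h1 := (hasSum_geometric_of_lt_one (by norm_num : (0 : ℝ) ≤ 3 / 4)
        (by norm_num)).mul_left (-(4 * B * (3 / 4) ^ M))
      have h2 : (fun n : ℕ => -(4 * B * (3 / 4 : ℝ) ^ (n + M)))
          = fun n => -(4 * B * (3 / 4) ^ M) * (3 / 4) ^ n := by
        funext n; rw [pow_add]; ring
      have h3 : -(16 * B * (3 / 4 : ℝ) ^ M) = -(4 * B * (3 / 4) ^ M) * (1 - 3 / 4)⁻¹ := by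
        norm_num; ring
      rw [h2, h3]
      exact h1
    have hs2 : Summable fun n => x ^ (n + M) * u (n + M) :=
      (summable_nat_add_iff M).2 hsum.summable
    exact hasSum_le (fun n => hr (n + M)) hg hs2.hasSum
  -- the value at `β`
  have hval : (G β / (β - 1)).re = -((G 1).re / (1 - β)) + (H β).re := by
    have hβne : (β : ℂ) ≠ 1 := by
      intro h
      have : β = 1 := by exact_mod_cast h
      linarith
    have h1 : G β / (β - 1) = G 1 / (β - 1) + H β := by
      rw [hHs _ hβne, sub_div]; ring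
    rw [h1, Complex.add_re]
    congr 1
    have h2 : G 1 / ((β : ℂ) - 1) = G 1 / (((β - 1 : ℝ)) : ℂ) := by push_cast; rfl
    rw [h2, Complex.div_ofReal_re, show β - 1 = -(1 - β) by ring, div_neg]
  rw [hval] at hneg
  have hd : 0 < 1 - β := by linarith
  have hxe : x - 1 = 1 - β := by rw [hx]; ring
  have hgeo : (∑ n ∈ Finset.range M, x ^ n) * (1 - β) = x ^ M - 1 := by
    rw [← hxe]; exact geom_sum_mul x M
  have hre : (G 1).re ≤ ‖G 1‖ := Complex.re_le_norm _
  have hxM : (1 : ℝ) ≤ x ^ M := one_le_pow₀ hx1.le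
  rcases hhead with hhead | h0
  · have h1 : -((G 1).re / (1 - β)) + (1 - (G 1).re * ∑ n ∈ Finset.range M, x ^ n
        - 16 * B * (3 / 4) ^ M) ≤ 0 := by linarith
    have h2 : (-((G 1).re / (1 - β)) + (1 - (G 1).re * ∑ n ∈ Finset.range M, x ^ n
        - 16 * B * (3 / 4) ^ M)) * (1 - β) ≤ 0 := by
      apply mul_nonpos_of_nonpos_of_nonneg h1 hd.le
    have h3 : (G 1).re / (1 - β) * (1 - β) = (G 1).re := div_mul_cancel₀ _ hd.ne'
    have h4 : (1 - 16 * B * (3 / 4) ^ M) * (1 - β) ≤ (G 1).re * x ^ M := by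
      have h5 : (G 1).re * ((∑ n ∈ Finset.range M, x ^ n) * (1 - β)) = (G 1).re * (x ^ M - 1) := by
        rw [hgeo]
      nlinarith [h2, h3, h5]
    exact h4.trans (mul_le_mul_of_nonneg_right hre (by positivity))
  · subst h0
    simp only [Finset.range_zero, Finset.sum_empty, zero_add] at hsplit
    simp only [pow_zero, mul_one, add_zero] at htail ⊢
    have h1 : (H β).re = ∑' n, x ^ (n + 0) * u (n + 0) := hsplit.symm
    simp only [add_zero] at h1
    have h2 : -((G 1).re / (1 - β)) - 16 * B ≤ 0 := by linarith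
    have h3 : (G 1).re / (1 - β) * (1 - β) = (G 1).re := div_mul_cancel₀ _ hd.ne'
    -- `u 0 ≥ 1 - Re G 1` and `|u 0| ≤ 4 B` give `1 ≤ 4 B + Re G 1`
    have h4 : u 0 ≤ 4 * B := by
      have := (abs_le.1 (hunorm 0)).2
      simpa using this
    have h5 : ‖G 1‖ ≤ B := hB 1 (by norm_num)
    have h6 : 1 ≤ 5 * B := by linarith [hulow0, (abs_le.1 (Complex.abs_re_le_norm (G 1))).2]
    nlinarith [norm_nonneg (G 1)]

end Pool.Agent.helper74.TG.h22
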