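import Pool.Agent.helper74.TG.Defs

/-!
# GNU project (MP_d11331_al), module sw:4b, part B: the coefficients of
`ζ(s) L(s,χ₁) L(s,χ₂) L(s,χ₁χ₂)` are nonnegative
-/

namespace Pool.Agent.helper74.TG.h22

open ArithmeticFunction LSeries

open scoped ComplexOrder

set_option linter.unusedSectionVars false

variable {q₁ q₂ : ℕ} [NeZero q₁] [NeZero q₂] (χ₁ : DirichletCharacter ℂ q₁)
    (χ₂ : DirichletCharacter ℂ q₂)

/-- The product character. -/
noncomputable abbrev psi : DirichletCharacter ℂ (q₁ * q₂) :=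
  DirichletCharacter.changeLevel (dvd_mul_right q₁ q₂) χ₁ *
    DirichletCharacter.changeLevel (dvd_mul_left q₂ q₁) χ₂

theorem psi_apply (n : ℕ) : psi χ₁ χ₂ n = χ₁ n * χ₂ n := by
  rw [psi, MulChar.mul_apply]
  by_cases h : Nat.Coprime n (q₁ * q₂)
  · have h1 : IsCoprime (n : ℤ) ((q₁ * q₂ : ℕ) : ℤ) := Nat.isCoprime_iff_coprime.2 h
    have h2 := DirichletCharacter.changeLevel_eq_cast_of_dvd' χ₁ (dvd_mul_right q₁ q₂) h1
    have h3 := DirichletCharacter.changeLevel_eq_cast_of_dvd' χ₂ (dvd_mul_left q₂ q₁) h1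
    rw [Int.cast_natCast, Int.cast_natCast] at h2 h3
    rw [h2, h3]
  · have h1 : ¬ IsUnit ((n : ℕ) : ZMod (q₁ * q₂)) := by
      rwa [ZMod.isUnit_iff_coprime]
    rw [MulChar.map_nonunit _ h1, zero_mul]
    rw [Nat.coprime_mul_iff_right, not_and_or] at h
    rcases h with h | h
    · rw [MulChar.map_nonunit χ₁ (by rwa [ZMod.isUnit_iff_coprime]), zero_mul]
    · rw [MulChar.map_nonunit χ₂ (by rwa [ZMod.isUnit_iff_coprime]), mul_zero]

/-- The coefficients. -/
noncomputable def aa : ArithmeticFunction ℂ :=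
  χ₁.zetaMul * (toArithmeticFunction (χ₂ ·) * toArithmeticFunction (psi χ₁ χ₂ ·))

theorem aa_mult : (aa χ₁ χ₂).IsMultiplicative :=
  χ₁.isMultiplicative_zetaMul.mul
    ((DirichletCharacter.isMultiplicative_toArithmeticFunction χ₂).mul
      (DirichletCharacter.isMultiplicative_toArithmeticFunction _))

/-- Twisting. -/
theorem conv_twist {q r : ℕ} (χ : DirichletCharacter ℂ q) (ψ : DirichletCharacter ℂ r) (n : ℕ) :
    (toArithmeticFunction (ψ ·) * toArithmeticFunction (fun n : ℕ => χ n * ψ n)) n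
      = ψ n * χ.zetaMul n := by
  rw [ArithmeticFunction.mul_apply, DirichletCharacter.zetaMul, ArithmeticFunction.mul_apply,
    Finset.mul_sum]
  refine Finset.sum_congr rfl fun p hp => ?_
  obtain ⟨h1, h2⟩ := Nat.mem_divisorsAntidiagonal.1 hp
  have h3 : p.1 ≠ 0 := by rintro h; rw [h, zero_mul] at h1; exact h2 h1.symm
  have h4 : p.2 ≠ 0 := by rintro h; rw [h, mul_zero] at h1; exact h2 h1.symm
  simp only [toArithmeticFunction, coe_mk, h3, h4, if_false, natCoe_apply, zeta_apply,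
    Nat.cast_one, one_mul]
  rw [← h1, Nat.cast_mul, map_mul]
  ring

theorem aa_apply (n : ℕ) : aa χ₁ χ₂ n = ∑ p ∈ n.divisorsAntidiagonal,
    χ₁.zetaMul p.1 * (χ₂ p.2 * χ₁.zetaMul p.2) := by
  have h : (fun n : ℕ => psi χ₁ χ₂ n) = fun n : ℕ => χ₁ n * χ₂ n := funext (psi_apply χ₁ χ₂)
  rw [aa, ArithmeticFunction.mul_apply]
  refine Finset.sum_congr rfl fun p _ => ?_
  rw [h, conv_twist]

theorem aa_apply' (n : ℕ) : aa χ₁ χ₂ n = ∑ p ∈ n.divisorsAntidiagonal,
    χ₂.zetaMul p.1 * (χ₁ p.2 * χ₂.zetaMul p.2) := by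
  have h : (fun n : ℕ => psi χ₁ χ₂ n) = fun n : ℕ => χ₂ n * χ₁ n := by
    funext n
    rw [psi_apply, mul_comm]
  have h2 : aa χ₁ χ₂ = χ₂.zetaMul * (toArithmeticFunction (χ₁ ·) *
      toArithmeticFunction (psi χ₁ χ₂ ·)) := by
    rw [aa, DirichletCharacter.zetaMul, DirichletCharacter.zetaMul]
    ring
  rw [h2, ArithmeticFunction.mul_apply]
  refine Finset.sum_congr rfl fun p _ => ?_
  rw [h, conv_twist]

variable {χ₁ χ₂}

theorem zetaMul_odd {q p j : ℕ} {χ : DirichletCharacter ℂ q} (hp : p.Prime) (h : χ p = -1)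
    (hj : Odd j) : χ.zetaMul (p ^ j) = 0 := by
  simp only [DirichletCharacter.zetaMul, toArithmeticFunction, coe_zeta_mul_apply, coe_mk,
    Nat.sum_divisors_prime_pow hp, pow_eq_zero_iff', hp.ne_zero, ne_eq, false_and, if_false,
    Nat.cast_pow, map_pow, h, neg_one_geom_sum]
  rw [if_pos]
  exact hj.add_one

theorem aa_prime_pow (h₁ : χ₁ ^ 2 = 1) (h₂ : χ₂ ^ 2 = 1) {p : ℕ} (hp : p.Prime) (k : ℕ) :
    0 ≤ aa χ₁ χ₂ (p ^ k) := by
  rcases MulChar.isQuadratic_iff_sq_eq_one.mpr h₂ p with h | h | h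
  · rw [aa_apply]
    refine Finset.sum_nonneg fun d hd => ?_
    refine mul_nonneg (DirichletCharacter.zetaMul_nonneg h₁ _)
      (mul_nonneg ?_ (DirichletCharacter.zetaMul_nonneg h₁ _))
    obtain ⟨j, _, hj⟩ := (Nat.dvd_prime_pow hp).1
      (Dvd.intro_left _ (Nat.mem_divisorsAntidiagonal.1 hd).1)
    rw [hj, Nat.cast_pow, map_pow, h]
    exact pow_nonneg le_rfl _
  · rw [aa_apply]
    refine Finset.sum_nonneg fun d hd => ?_
    refine mul_nonneg (DirichletCharacter.zetaMul_nonneg h₁ _)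
      (mul_nonneg ?_ (DirichletCharacter.zetaMul_nonneg h₁ _))
    obtain ⟨j, _, hj⟩ := (Nat.dvd_prime_pow hp).1
      (Dvd.intro_left _ (Nat.mem_divisorsAntidiagonal.1 hd).1)
    rw [hj, Nat.cast_pow, map_pow, h, one_pow]
    exact zero_le_one
  · rw [aa_apply']
    refine Finset.sum_nonneg fun d hd => ?_
    refine mul_nonneg (DirichletCharacter.zetaMul_nonneg h₂ _) ?_
    obtain ⟨j, _, hj⟩ := (Nat.dvd_prime_pow hp).1
      (Dvd.intro_left _ (Nat.mem_divisorsAntidiagonal.1 hd).1)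
    rcases Nat.even_or_odd j with he | ho
    · refine mul_nonneg ?_ (DirichletCharacter.zetaMul_nonneg h₂ _)
      rw [hj, Nat.cast_pow, map_pow]
      rcases MulChar.isQuadratic_iff_sq_eq_one.mpr h₁ p with h' | h' | h'
      · rw [h']; exact pow_nonneg le_rfl _
      · rw [h', one_pow]; exact zero_le_one
      · rw [h', he.neg_one_pow]; exact zero_le_one
    · rw [hj, zetaMul_odd hp h ho, mul_zero]

theorem aa_nonneg (h₁ : χ₁ ^ 2 = 1) (h₂ : χ₂ ^ 2 = 1) (n : ℕ) : 0 ≤ aa χ₁ χ₂ n := by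
  rcases eq_or_ne n 0 with rfl | hn
  · simp only [ArithmeticFunction.map_zero, le_refl]
  · simpa only [(aa_mult χ₁ χ₂).multiplicative_factorization _ hn] using!
      Finset.prod_nonneg
        fun p hp => aa_prime_pow h₁ h₂ (Nat.prime_of_mem_primeFactors hp) _

variable (χ₁ χ₂)

theorem summ_toA {q : ℕ} (χ : DirichletCharacter ℂ q) [NeZero q] {s : ℂ} (hs : 1 < s.re) :
    LSeriesSummable (fun n : ℕ => (toArithmeticFunction (χ ·)) n) s :=
  (LSeriesSummable_congr _ fun h => (χ.apply_eq_toArithmeticFunction_apply h).symm).mpr <|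
      ZMod.LSeriesSummable_of_one_lt_re χ hs

theorem lseries_toA {q : ℕ} (χ : DirichletCharacter ℂ q) [NeZero q] {s : ℂ} (hs : 1 < s.re) :
    LSeries (fun n : ℕ => (toArithmeticFunction (χ ·)) n) s = DirichletCharacter.LFunction χ s := by
  rw [χ.LFunction_eq_LSeries hs]
  exact (LSeries_congr χ.apply_eq_toArithmeticFunction_apply s).symm

theorem aa_summable {s : ℂ} (hs : 1 < s.re) : LSeriesSummable (fun n : ℕ => (aa χ₁ χ₂) n) s :=
  ArithmeticFunction.LSeriesSummable_mul (χ₁.LSeriesSummable_zetaMul hs)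
    (ArithmeticFunction.LSeriesSummable_mul (summ_toA χ₂ hs) (summ_toA (psi χ₁ χ₂) hs))

theorem zetaMul_LSeries {q : ℕ} (χ : DirichletCharacter ℂ q) [NeZero q] {s : ℂ} (hs : 1 < s.re) :
    LSeries (fun n : ℕ => χ.zetaMul n) s = riemannZeta s * DirichletCharacter.LFunction χ s := by
  rw [DirichletCharacter.zetaMul, ← coe_mul, LSeries_convolution']
  · rw [χ.LFunction_eq_LSeries hs]
    congr 1
    · simp_rw [← LSeries_zeta_eq_riemannZeta hs, ← natCoe_apply]
    · exact (LSeries_congr χ.apply_eq_toArithmeticFunction_apply s).symm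
  · exact LSeriesSummable_zeta_iff.mpr hs
  · exact summ_toA χ hs

theorem aa_LSeries {s : ℂ} (hs : 1 < s.re) : LSeries (fun n : ℕ => (aa χ₁ χ₂) n) s = FS χ₁ χ₂ s := by
  have h1 := ArithmeticFunction.LSeries_mul' (χ₁.LSeriesSummable_zetaMul hs)
    (ArithmeticFunction.LSeriesSummable_mul (summ_toA χ₂ hs) (summ_toA (psi χ₁ χ₂) hs))
  have h2 := ArithmeticFunction.LSeries_mul' (summ_toA χ₂ hs) (summ_toA (psi χ₁ χ₂) hs)
  have h3 := zetaMul_LSeries χ₁ hs
  rw [lseries_toA _ hs, lseries_toA _ hs] at h2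
  rw [h2, h3] at h1
  rw [aa, h1, FS]
  ring

theorem aa_abscissa : abscissaOfAbsConv (fun n : ℕ => (aa χ₁ χ₂) n) ≤ 1 := by
  have : abscissaOfAbsConv (fun n : ℕ => (aa χ₁ χ₂) n) ≤ ((1 : ℝ) : EReal) :=
    abscissaOfAbsConv_le_of_forall_lt_LSeriesSummable fun y hy =>
      aa_summable χ₁ χ₂ (by simpa using hy)
  simpa using this

theorem aa_one : aa χ₁ χ₂ 1 = 1 := (aa_mult χ₁ χ₂).map_one

end Pool.Agent.helper74.TG.h22
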