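import Pool.Agent.helper22.TG.EstA
import Pool.Agent.helper22.TG.EstB

/-!
# GNU project (MP_d11331_al), module sw:4b: Estermann's lemma
-/

namespace Pool.Agent.helper74.TG

open h22 Complex

namespace h22

/-- `(s-1) ζ(s)` with the value `1` at `1`. -/
noncomputable def zt (s : ℂ) : ℂ := Function.update (fun s => (s - 1) * riemannZeta s) 1 1 s

theorem zt_of_ne {s : ℂ} (hs : s ≠ 1) : zt s = (s - 1) * riemannZeta s := by
  rw [zt, Function.update_of_ne hs]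

theorem zt_one : zt 1 = 1 := by rw [zt, Function.update_self]

theorem zt_diff : Differentiable ℂ zt := by
  have hne : ∀ s : ℂ, s ≠ 1 → DifferentiableAt ℂ zt s := by
    intro s hs
    apply DifferentiableAt.congr_of_eventuallyEq
      (f := fun s => (s - 1) * riemannZeta s)
    · exact (differentiableAt_id.sub_const 1).mul (differentiableAt_riemannZeta hs)
    · filter_upwards [eventually_ne_nhds hs] with t ht using zt_of_ne ht
  intro s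
  rcases ne_or_eq s 1 with hs | rfl
  · exact hne s hs
  · refine (analyticAt_of_differentiable_on_punctured_nhds_of_continuousAt ?_ ?_).differentiableAt
    · filter_upwards [self_mem_nhdsWithin] with t ht
      exact hne t ht
    · have h : zt = Function.update (fun s => (s - 1) * riemannZeta s) 1 1 := rfl
      rw [h, continuousAt_update_same]
      exact riemannZeta_residue_one

variable {q₁ q₂ : ℕ} [NeZero q₁] [NeZero q₂] (χ₁ : DirichletCharacter ℂ q₁)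
    (χ₂ : DirichletCharacter ℂ q₂)

/-- `(s-1) F(s)`. -/
noncomputable def GG4 (s : ℂ) : ℂ :=
  zt s * DirichletCharacter.LFunction χ₁ s * DirichletCharacter.LFunction χ₂ s *
    DirichletCharacter.LFunction (psi χ₁ χ₂) s

theorem GG4_diff (h₁ : χ₁ ≠ 1) (h₂ : χ₂ ≠ 1) (h : psi χ₁ χ₂ ≠ 1) :
    Differentiable ℂ (GG4 χ₁ χ₂) :=
  ((zt_diff.mul (DirichletCharacter.differentiable_LFunction h₁)).mul
    (DirichletCharacter.differentiable_LFunction h₂)).mul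
    (DirichletCharacter.differentiable_LFunction h)

theorem GG4_of_ne {s : ℂ} (hs : s ≠ 1) : GG4 χ₁ χ₂ s / (s - 1) = FS χ₁ χ₂ s := by
  have h : s - 1 ≠ 0 := sub_ne_zero.2 hs
  rw [GG4, zt_of_ne hs, FS]
  field_simp

theorem GG4_one : GG4 χ₁ χ₂ 1 = lamS χ₁ χ₂ := by
  rw [GG4, zt_one, lamS, one_mul]

theorem three_quarters_pow : ((3 : ℝ) / 4) ^ 7 ≤ Real.exp (-2) := by
  rw [Real.exp_neg, ← one_div, le_div_iff₀ (Real.exp_pos _)]
  have h1 := Real.exp_one_lt_d9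
  have h2 : Real.exp 2 = Real.exp 1 * Real.exp 1 := by rw [← Real.exp_add]; norm_num
  have h3 := Real.exp_pos 1
  rw [h2]
  nlinarith

end h22

/-- sw:4b, from the statement of sw:4a. -/
theorem estermann_of (h4a : ∃ C : ℝ, 0 < C ∧
    (∀ (q : ℕ) [NeZero q], 2 ≤ q → ∀ χ : DirichletCharacter ℂ q, χ ≠ 1 → ∀ s : ℂ, ‖s - 2‖ ≤ 3 / 2 →
      ‖DirichletCharacter.LFunction χ s‖ ≤ C * q) ∧
    (∀ s : ℂ, ‖s - 2‖ ≤ 3 / 2 → ‖(s - 1) * riemannZeta s‖ ≤ C)) :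
    ∃ (c : ℝ) (E : ℕ), 0 < c ∧ ∀ (q₁ q₂ : ℕ) [NeZero q₁] [NeZero q₂], 2 ≤ q₁ →
    2 ≤ q₂ → ∀ (χ₁ : DirichletCharacter ℂ q₁) (χ₂ : DirichletCharacter ℂ q₂), χ₁ ^ 2 = 1 →
    χ₂ ^ 2 = 1 → χ₁ ≠ 1 → χ₂ ≠ 1 →
    DirichletCharacter.changeLevel (dvd_mul_right q₁ q₂) χ₁ *
        DirichletCharacter.changeLevel (dvd_mul_left q₂ q₁) χ₂ ≠ 1 →
    ∀ β : ℝ, 7 / 8 < β → β < 1 → (FS χ₁ χ₂ β).re ≤ 0 →
    c * (1 - β) / ((q₁ : ℝ) * q₂) ^ (E * (1 - β)) ≤ ‖lamS χ₁ χ₂‖ := by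
  obtain ⟨C, hC0, hL, hz⟩ := h4a
  set K : ℝ := (max C 1) ^ 4 with hK
  have hm1 : 1 ≤ max C 1 := le_max_right _ _
  have hmC : C ≤ max C 1 := le_max_left _ _
  have hK1 : 1 ≤ K := one_le_pow₀ hm1
  obtain ⟨M₀, hM₀⟩ : ∃ M₀ : ℕ, (3 / 4 : ℝ) ^ M₀ < 1 / (32 * K) :=
    exists_pow_lt_of_lt_one (by positivity) (by norm_num)
  refine ⟨1 / (2 * Real.exp (M₀ + 7)), 7, by positivity, ?_⟩
  intro q₁ q₂ _ _ hq₁ hq₂ χ₁ χ₂ hsq₁ hsq₂ hne₁ hne₂ hne β hβ1 hβ2 hneg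
  set Q : ℝ := (q₁ : ℝ) * q₂ with hQ
  have hq₁' : (2 : ℝ) ≤ q₁ := by exact_mod_cast hq₁
  have hq₂' : (2 : ℝ) ≤ q₂ := by exact_mod_cast hq₂
  have hQ1 : 1 < Q := by rw [hQ]; nlinarith
  have hQ0 : 0 < Q := by linarith
  have hlog : 0 < Real.log Q := Real.log_pos hQ1
  have hneβ : (β : ℂ) ≠ 1 := by
    intro h
    have : β = 1 := by exact_mod_cast h
    linarith
  -- the bound
  have hbound : ∀ s : ℂ, ‖s - 2‖ ≤ 3 / 2 → ‖GG4 χ₁ χ₂ s‖ ≤ K * Q ^ 2 := by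
    intro s hs
    have h1 : ‖zt s‖ ≤ max C 1 := by
      rcases eq_or_ne s 1 with rfl | h
      · rw [zt_one, norm_one]; exact hm1
      · rw [zt_of_ne h]; exact (hz s hs).trans hmC
    have h2 := (hL q₁ hq₁ χ₁ hne₁ s hs).trans (mul_le_mul_of_nonneg_right hmC (by positivity))
    have h3 := (hL q₂ hq₂ χ₂ hne₂ s hs).trans (mul_le_mul_of_nonneg_right hmC (by positivity))
    have h4 := (hL (q₁ * q₂) (by nlinarith) (psi χ₁ χ₂) hne s hs).trans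
      (mul_le_mul_of_nonneg_right hmC (by positivity))
    rw [GG4, norm_mul, norm_mul, norm_mul]
    calc ‖zt s‖ * ‖DirichletCharacter.LFunction χ₁ s‖ * ‖DirichletCharacter.LFunction χ₂ s‖ *
          ‖DirichletCharacter.LFunction (psi χ₁ χ₂) s‖
        ≤ max C 1 * (max C 1 * q₁) * (max C 1 * q₂) * (max C 1 * ((q₁ * q₂ : ℕ) : ℝ)) := by
          gcongr
      _ = K * Q ^ 2 := by rw [hK, hQ]; push_cast; ring
  set t : ℕ := ⌈Real.log Q⌉₊ with ht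
  have ht1 : Real.log Q ≤ t := Nat.le_ceil _
  have ht2 : (t : ℝ) < Real.log Q + 1 := Nat.ceil_lt_add_one hlog.le
  have hmain := est_abstract (fun n => aa χ₁ χ₂ n) (fun n => aa_nonneg hsq₁ hsq₂ n)
    (aa_one χ₁ χ₂) (aa_abscissa χ₁ χ₂) (GG4 χ₁ χ₂) (GG4_diff χ₁ χ₂ hne₁ hne₂ hne)
    (fun s hs => by
      rw [aa_LSeries χ₁ χ₂ hs, GG4_of_ne]
      rintro rfl
      simp at hs) (K * Q ^ 2) hbound β hβ1 hβ2 (by rw [GG4_of_ne _ _ hneβ]; exact hneg) (M₀ + 7 * t)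
  rw [GG4_one] at hmain
  have hsmall : 16 * (K * Q ^ 2) * (3 / 4) ^ (M₀ + 7 * t) ≤ 1 / 2 := by
    have h1 : ((3 : ℝ) / 4) ^ (7 * t) * Q ^ 2 ≤ 1 := by
      have h2 : ((3 : ℝ) / 4) ^ (7 * t) ≤ Real.exp (-2 * t) := by
        rw [pow_mul, mul_comm, Real.exp_nat_mul]
        exact pow_le_pow_left₀ (by positivity) three_quarters_pow _
      have h3 : Q ^ 2 = Real.exp (2 * Real.log Q) := by
        rw [two_mul, Real.exp_add, Real.exp_log hQ0]; ring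
      calc ((3 : ℝ) / 4) ^ (7 * t) * Q ^ 2 ≤ Real.exp (-2 * t) * Real.exp (2 * Real.log Q) := by
            rw [← h3]
            exact mul_le_mul_of_nonneg_right h2 (by positivity)
        _ = Real.exp (-2 * t + 2 * Real.log Q) := by rw [Real.exp_add]
        _ ≤ 1 := by
            rw [Real.exp_le_one_iff]
            linarith
    have h4 : 32 * K * (3 / 4 : ℝ) ^ M₀ ≤ 1 := by
      have := hM₀.le
      rw [le_div_iff₀ (by positivity)] at this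
      linarith
    rw [pow_add]
    calc 16 * (K * Q ^ 2) * ((3 / 4) ^ M₀ * (3 / 4) ^ (7 * t))
        = (32 * K * (3 / 4 : ℝ) ^ M₀) * (((3 : ℝ) / 4) ^ (7 * t) * Q ^ 2) / 2 := by ring
      _ ≤ 1 * 1 / 2 := by gcongr
      _ = 1 / 2 := by norm_num
  have hd : 0 < 1 - β := by linarith
  have hx : (2 - β) ^ (M₀ + 7 * t) ≤ Real.exp (M₀ + 7) * Q ^ (7 * (1 - β)) := by
    have h1 : 2 - β ≤ Real.exp (1 - β) := by
      have := Real.add_one_le_exp (1 - β)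
      linarith
    calc (2 - β) ^ (M₀ + 7 * t) ≤ (Real.exp (1 - β)) ^ (M₀ + 7 * t) :=
          pow_le_pow_left₀ (by linarith) h1 _
      _ = Real.exp (((M₀ + 7 * t : ℕ) : ℝ) * (1 - β)) := by rw [Real.exp_nat_mul]
      _ ≤ Real.exp ((M₀ + 7) + Real.log Q * (7 * (1 - β))) := by
          apply Real.exp_le_exp.2
          push_cast
          have h2 : (M₀ : ℝ) * (1 - β) ≤ M₀ := by
            have : (0 : ℝ) ≤ M₀ := by positivity
            nlinarith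
          have h3 : 7 * (t : ℝ) * (1 - β) ≤ 7 * (Real.log Q + 1) * (1 - β) := by
            gcongr
          nlinarith
      _ = _ := by rw [Real.exp_add, Real.rpow_def_of_pos hQ0]
  have hlam : 0 ≤ ‖lamS χ₁ χ₂‖ := norm_nonneg _
  have hfin : (1 - β) / 2 ≤ ‖lamS χ₁ χ₂‖ * (Real.exp (M₀ + 7) * Q ^ (7 * (1 - β))) := by
    calc (1 - β) / 2 = (1 - 1 / 2) * (1 - β) := by ring
      _ ≤ (1 - 16 * (K * Q ^ 2) * (3 / 4) ^ (M₀ + 7 * t)) * (1 - β) := by gcongr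
      _ ≤ ‖lamS χ₁ χ₂‖ * (2 - β) ^ (M₀ + 7 * t) := hmain
      _ ≤ _ := mul_le_mul_of_nonneg_left hx hlam
  have hpow : 0 < Q ^ (7 * (1 - β)) := Real.rpow_pos_of_pos hQ0 _
  push_cast
  rw [div_le_iff₀ hpow]
  have hexp := Real.exp_pos ((M₀ : ℝ) + 7)
  calc 1 / (2 * Real.exp (M₀ + 7)) * (1 - β) = (1 - β) / 2 / Real.exp (M₀ + 7) := by
        field_simp
    _ ≤ ‖lamS χ₁ χ₂‖ * Q ^ (7 * (1 - β)) := by
        rw [div_le_iff₀ hexp]
        calc (1 - β) / 2 ≤ _ := hfin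
          _ = _ := by ring

end Pool.Agent.helper74.TG
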