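import Pool.Agent.helper22.TG.Sie1

/-!
# GNU project (MP_d11331_al), module sw:4c: Siegel's theorem
-/

namespace Pool.Agent.helper74.TG

open h22 Complex

namespace h22

/-- The product of `1 - 1/p` over the prime divisors of `N` is `≫ N^(-ε)`. -/
theorem prod_lower {ε : ℝ} (hε : 0 < ε) : ∃ c : ℝ, 0 < c ∧ ∀ N : ℕ, 0 < N →
    c * (N : ℝ) ^ (-ε) ≤ ∏ p ∈ N.primeFactors, (1 - 1 / (p : ℝ)) := by
  obtain ⟨p₀, hp₀⟩ := exists_nat_gt (2 / (ε * Real.log 2))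
  refine ⟨(1 / 2) ^ p₀, by positivity, fun N hN => ?_⟩
  have hlog2 : 0 < Real.log 2 := Real.log_pos (by norm_num)
  have hterm : ∀ p ∈ N.primeFactors, (if p < p₀ then (1 / 2 : ℝ) else 1) * (p : ℝ) ^ (-ε)
      ≤ 1 - 1 / (p : ℝ) := by
    intro p hp
    have hpp := Nat.prime_of_mem_primeFactors hp
    have hp2 : (2 : ℝ) ≤ p := by exact_mod_cast hpp.two_le
    have hp1 : (p : ℝ) ^ (-ε) ≤ 1 := Real.rpow_le_one_of_one_le_of_nonpos (by linarith) (by linarith)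
    have hhalf : (1 / 2 : ℝ) ≤ 1 - 1 / (p : ℝ) := by
      have : 1 / (p : ℝ) ≤ 1 / 2 := one_div_le_one_div_of_le (by norm_num) hp2
      linarith
    split_ifs with h
    · linarith
    · push Not at h
      rw [one_mul]
      have hpp0 : (p₀ : ℝ) ≤ p := by exact_mod_cast h
      have hp0 : (0 : ℝ) < p := by linarith
      have hlogp : Real.log 2 ≤ Real.log p := Real.log_le_log (by norm_num) hp2
      have h1 : 2 / (ε * Real.log 2) < p := lt_of_lt_of_le hp₀ hpp0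
      rw [div_lt_iff₀ (by positivity)] at h1
      have h2 : 2 / (p : ℝ) ≤ ε * Real.log p := by
        rw [div_le_iff₀ hp0]
        nlinarith [mul_le_mul_of_nonneg_left hlogp hε.le]
      have h3 : (p : ℝ) ^ (-ε) ≤ Real.exp (-(2 / (p : ℝ))) := by
        rw [Real.rpow_def_of_pos hp0]
        apply Real.exp_le_exp.2
        linarith
      have h4 : Real.exp (-(2 / (p : ℝ))) ≤ 1 - 1 / (p : ℝ) := by
        have h5 : 0 < 1 - 1 / (p : ℝ) := by linarith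
        rw [Real.exp_neg, inv_le_comm₀ (Real.exp_pos _) h5]
        have h6 := Real.add_one_le_exp (2 / (p : ℝ))
        refine le_trans ?_ h6
        rw [inv_le_iff_one_le_mul₀' h5]
        have h7 : 1 / (p : ℝ) ≤ 1 / 2 := one_div_le_one_div_of_le (by norm_num) hp2
        have h8 : 0 < 1 / (p : ℝ) := by positivity
        have h9 : 2 / (p : ℝ) = 2 * (1 / (p : ℝ)) := by ring
        rw [h9]
        nlinarith
      exact h3.trans h4
  have hprod : ∏ p ∈ N.primeFactors, ((if p < p₀ then (1 / 2 : ℝ) else 1) * (p : ℝ) ^ (-ε))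
      ≤ ∏ p ∈ N.primeFactors, (1 - 1 / (p : ℝ)) := by
    apply Finset.prod_le_prod _ hterm
    intro p _
    split_ifs <;> positivity
  refine le_trans ?_ hprod
  rw [Finset.prod_mul_distrib]
  apply mul_le_mul
  · have h1 : ∏ p ∈ N.primeFactors, (if p < p₀ then (1 / 2 : ℝ) else 1)
        = (1 / 2 : ℝ) ^ (N.primeFactors.filter (· < p₀)).card := by
      rw [Finset.prod_ite, Finset.prod_const, Finset.prod_const_one, mul_one]
    rw [h1]
    apply pow_le_pow_of_le_one (by norm_num) (by norm_num)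
    calc (N.primeFactors.filter (· < p₀)).card ≤ (Finset.range p₀).card := by
          apply Finset.card_le_card
          intro p hp
          exact Finset.mem_range.2 (Finset.mem_filter.1 hp).2
      _ = p₀ := Finset.card_range _
  · have h1 : ∏ p ∈ N.primeFactors, (p : ℝ) ^ (-ε) = (∏ p ∈ N.primeFactors, (p : ℝ)) ^ (-ε) := by
      rw [Real.finsetProd_rpow]
      intro p _; positivity
    rw [h1]
    have h2 : (∏ p ∈ N.primeFactors, (p : ℝ)) ≤ N := by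
      rw [← Nat.cast_prod]
      exact_mod_cast Nat.le_of_dvd hN (Nat.prod_primeFactors_dvd N)
    have h3 : 0 < ∏ p ∈ N.primeFactors, (p : ℝ) :=
      Finset.prod_pos fun p hp => by exact_mod_cast (Nat.prime_of_mem_primeFactors hp).pos
    exact Real.rpow_le_rpow_of_nonpos h3 h2 (by linarith)
  · positivity
  · exact Finset.prod_nonneg fun p _ => by split_ifs <;> norm_num

section same

variable {q₁ q₂ : ℕ} [NeZero q₁] [NeZero q₂] (χ₁ : DirichletCharacter ℂ q₁)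
    (χ₂ : DirichletCharacter ℂ q₂)

theorem psi_sq (h₁ : χ₁ ^ 2 = 1) (h₂ : χ₂ ^ 2 = 1) : psi χ₁ χ₂ ^ 2 = 1 := by
  rw [psi, mul_pow, ← map_pow, ← map_pow, h₁, h₂, map_one, map_one, mul_one]

theorem norm_factor_le {q : ℕ} (χ : DirichletCharacter ℂ q) {p : ℕ} (hp : p.Prime) :
    ‖1 - χ p * (p : ℂ) ^ (-(1 : ℂ))‖ ≤ 1 + 1 / (p : ℝ) := by
  calc ‖1 - χ p * (p : ℂ) ^ (-(1 : ℂ))‖ ≤ ‖(1 : ℂ)‖ + ‖χ p * (p : ℂ) ^ (-(1 : ℂ))‖ :=
        norm_sub_le _ _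
    _ ≤ 1 + 1 * (1 / (p : ℝ)) := by
        rw [norm_one, norm_mul, Complex.cpow_neg_one, norm_inv, Complex.norm_natCast, one_div]
        gcongr
        exact χ.norm_le_one _
    _ = _ := by rw [one_mul]

theorem norm_factor_ge {q : ℕ} (χ : DirichletCharacter ℂ q) {p : ℕ} (hp : p.Prime) :
    1 - 1 / (p : ℝ) ≤ ‖1 - χ p * (p : ℂ) ^ (-(1 : ℂ))‖ := by
  have h1 : ‖χ p * (p : ℂ) ^ (-(1 : ℂ))‖ ≤ 1 / (p : ℝ) := by
    rw [norm_mul, Complex.cpow_neg_one, norm_inv, Complex.norm_natCast, one_div]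
    calc ‖χ p‖ * (p : ℝ)⁻¹ ≤ 1 * (p : ℝ)⁻¹ := by gcongr; exact χ.norm_le_one _
      _ = _ := one_mul _
  have h2 := norm_sub_norm_le (1 : ℂ) (χ p * (p : ℂ) ^ (-(1 : ℂ)))
  rw [norm_one] at h2
  linarith

/-- The case of equal underlying primitive characters. -/
theorem same_case (h₂ : χ₂ ^ 2 = 1) (hne₁ : χ₁ ≠ 1) (hne₂ : χ₂ ≠ 1) (h : psi χ₁ χ₂ = 1) :
    ‖DirichletCharacter.LFunction χ₁ 1‖ *
      (∏ p ∈ (q₁ * q₂).primeFactors, (1 - 1 / (p : ℝ))) ^ 2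
      ≤ ‖DirichletCharacter.LFunction χ₂ 1‖ := by
  have hB : (DirichletCharacter.changeLevel (dvd_mul_left q₂ q₁) χ₂) ^ 2 = 1 := by
    rw [← map_pow, h₂, map_one]
  have hAB : DirichletCharacter.changeLevel (dvd_mul_right q₁ q₂) χ₁ =
      DirichletCharacter.changeLevel (dvd_mul_left q₂ q₁) χ₂ := by
    rw [psi] at h
    calc _ = DirichletCharacter.changeLevel (dvd_mul_right q₁ q₂) χ₁ *
          (DirichletCharacter.changeLevel (dvd_mul_left q₂ q₁) χ₂) ^ 2 := by rw [hB, mul_one]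
      _ = (DirichletCharacter.changeLevel (dvd_mul_right q₁ q₂) χ₁ *
          DirichletCharacter.changeLevel (dvd_mul_left q₂ q₁) χ₂) *
          DirichletCharacter.changeLevel (dvd_mul_left q₂ q₁) χ₂ := by rw [sq, mul_assoc]
      _ = _ := by rw [h, one_mul]
  have h1 := DirichletCharacter.LFunction_changeLevel (dvd_mul_right q₁ q₂) χ₁ (s := 1)
    (.inl hne₁)
  have h2 := DirichletCharacter.LFunction_changeLevel (dvd_mul_left q₂ q₁) χ₂ (s := 1)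
    (.inl hne₂)
  rw [hAB, h2] at h1
  have h3 := congrArg norm h1
  rw [norm_mul, norm_mul, norm_prod, norm_prod] at h3
  set P := ∏ p ∈ (q₁ * q₂).primeFactors, (1 - 1 / (p : ℝ)) with hP
  have hP0 : 0 ≤ P := Finset.prod_nonneg fun p hp => by
    have hp2 : (1 : ℝ) ≤ p := by exact_mod_cast (Nat.prime_of_mem_primeFactors hp).one_lt.le
    have : 1 / (p : ℝ) ≤ 1 := by rw [div_le_one (by linarith)]; exact hp2
    linarith
  have hlow : P ≤ ∏ p ∈ (q₁ * q₂).primeFactors, ‖1 - χ₁ p * (p : ℂ) ^ (-(1 : ℂ))‖ := by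
    apply Finset.prod_le_prod
    · intro p hp
      have hp2 : (1 : ℝ) ≤ p := by exact_mod_cast (Nat.prime_of_mem_primeFactors hp).one_lt.le
      have : 1 / (p : ℝ) ≤ 1 := by rw [div_le_one (by linarith)]; exact hp2
      linarith
    · intro p hp
      exact norm_factor_ge χ₁ (Nat.prime_of_mem_primeFactors hp)
  have hup : (∏ p ∈ (q₁ * q₂).primeFactors, ‖1 - χ₂ p * (p : ℂ) ^ (-(1 : ℂ))‖) * P ≤ 1 := by
    rw [hP, ← Finset.prod_mul_distrib]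
    apply Finset.prod_le_one
    · intro p hp
      have hp2 : (1 : ℝ) ≤ p := by exact_mod_cast (Nat.prime_of_mem_primeFactors hp).one_lt.le
      have : 1 / (p : ℝ) ≤ 1 := by rw [div_le_one (by linarith)]; exact hp2
      exact mul_nonneg (norm_nonneg _) (by linarith)
    · intro p hp
      have hp2 : (1 : ℝ) ≤ p := by exact_mod_cast (Nat.prime_of_mem_primeFactors hp).one_lt.le
      have h5 : 1 / (p : ℝ) ≤ 1 := by rw [div_le_one (by linarith)]; exact hp2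
      have h6 : 0 ≤ 1 / (p : ℝ) := by positivity
      calc ‖1 - χ₂ p * (p : ℂ) ^ (-(1 : ℂ))‖ * (1 - 1 / (p : ℝ))
          ≤ (1 + 1 / (p : ℝ)) * (1 - 1 / (p : ℝ)) :=
            mul_le_mul_of_nonneg_right (norm_factor_le χ₂ (Nat.prime_of_mem_primeFactors hp))
              (by linarith)
        _ ≤ 1 := by nlinarith
  calc ‖DirichletCharacter.LFunction χ₁ 1‖ * P ^ 2
      = (‖DirichletCharacter.LFunction χ₁ 1‖ * P) * P := by ring
    _ ≤ (‖DirichletCharacter.LFunction χ₁ 1‖ *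
        ∏ p ∈ (q₁ * q₂).primeFactors, ‖1 - χ₁ p * (p : ℂ) ^ (-(1 : ℂ))‖) * P := by gcongr
    _ = ‖DirichletCharacter.LFunction χ₂ 1‖ *
        ((∏ p ∈ (q₁ * q₂).primeFactors, ‖1 - χ₂ p * (p : ℂ) ^ (-(1 : ℂ))‖) * P) := by
        rw [← h3]; ring
    _ ≤ ‖DirichletCharacter.LFunction χ₂ 1‖ * 1 := by gcongr
    _ = _ := mul_one _

end same

/-- The odd character modulo `4`. -/
noncomputable def chi4 : DirichletCharacter ℂ 4 := ZMod.χ₄.ringHomComp (Int.castRingHom ℂ)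

theorem chi4_sq : chi4 ^ 2 = 1 :=
  (ZMod.isQuadratic_χ₄.comp (Int.castRingHom ℂ)).sq_eq_one

theorem chi4_ne : chi4 ≠ 1 := by
  intro h
  have h1 : chi4 3 = 1 := by
    rw [h]
    exact MulChar.one_apply (by decide)
  have h2 : chi4 3 = -1 := by
    rw [chi4, MulChar.ringHomComp_apply]
    have : ZMod.χ₄ 3 = -1 := by decide
    rw [this]
    simp
  rw [h1] at h2
  norm_num at h2

/-- The reference character. -/
theorem reference {δ : ℝ} (hδ : 0 < δ) (hδ8 : δ ≤ 1 / 8)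
    (hζ : ∀ x : ℝ, 1 - δ < x → x < 1 → (riemannZeta x).re < 0 ∧ (riemannZeta x).im = 0) :
    ∃ (q₁ : ℕ) (_ : NeZero q₁) (χ₁ : DirichletCharacter ℂ q₁) (β : ℝ), 2 ≤ q₁ ∧ χ₁ ^ 2 = 1 ∧
      χ₁ ≠ 1 ∧ 1 - δ < β ∧ β < 1 ∧
      ∀ (q₂ : ℕ) [NeZero q₂] (χ₂ : DirichletCharacter ℂ q₂), χ₂ ^ 2 = 1 → χ₂ ≠ 1 → 2 ≤ q₂ →
        psi χ₁ χ₂ ≠ 1 → (FS χ₁ χ₂ β).re ≤ 0 := by
  by_cases hex : ∃ (q₁ : ℕ) (_ : NeZero q₁) (χ₁ : DirichletCharacter ℂ q₁) (β : ℝ), 2 ≤ q₁ ∧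
      χ₁ ^ 2 = 1 ∧ χ₁ ≠ 1 ∧ 1 - δ < β ∧ β < 1 ∧ DirichletCharacter.LFunction χ₁ β = 0
  · obtain ⟨q₁, i, χ₁, β, h1, h2, h3, h4, h5, h6⟩ := hex
    refine ⟨q₁, i, χ₁, β, h1, h2, h3, h4, h5, ?_⟩
    intro q₂ _ χ₂ _ _ _ _
    rw [FS, h6]
    simp
  · push Not at hex
    refine ⟨4, inferInstance, chi4, 1 - δ / 2, by norm_num, chi4_sq, chi4_ne, by linarith,
      by linarith, ?_⟩
    intro q₂ _ χ₂ hsq hne hq₂ hpsi
    set β : ℝ := 1 - δ / 2 with hβ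
    have hβ1 : 1 - δ < β := by rw [hβ]; linarith
    have hβ2 : β < 1 := by rw [hβ]; linarith
    have hβ3 : β ≤ 2 := by linarith
    have hLz : ∀ (q : ℕ) [NeZero q] (χ : DirichletCharacter ℂ q), 2 ≤ q → χ ^ 2 = 1 → χ ≠ 1 →
        0 < (DirichletCharacter.LFunction χ β).re ∧ (DirichletCharacter.LFunction χ β).im = 0 := by
      intro q i χ hq hs hn
      exact ⟨L_pos hn hs (fun x hx1 hx2 => hex q i χ x hq hs hn hx1 hx2) hβ1 hβ3, L_im hn hs β⟩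
    obtain ⟨ha1, ha2⟩ := hLz 4 chi4 (by norm_num) chi4_sq chi4_ne
    obtain ⟨hb1, hb2⟩ := hLz q₂ χ₂ hq₂ hsq hne
    obtain ⟨hc1, hc2⟩ := hLz (4 * q₂) (psi chi4 χ₂) (by omega) (psi_sq _ _ chi4_sq hsq) hpsi
    obtain ⟨hz1, hz2⟩ := hζ β hβ1 hβ2
    have e : ∀ z : ℂ, z.im = 0 → z = ((z.re : ℝ) : ℂ) := fun z hz => Complex.ext (by simp) (by simpa)
    have hFS : FS chi4 χ₂ β = (((riemannZeta β).re * (DirichletCharacter.LFunction chi4 β).re *
        (DirichletCharacter.LFunction χ₂ β).re *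
        (DirichletCharacter.LFunction (psi chi4 χ₂) β).re : ℝ) : ℂ) := by
      rw [FS]
      push_cast
      rw [← e _ hz2, ← e _ ha2, ← e _ hb2, ← e _ hc2]
    rw [hFS, Complex.ofReal_re]
    have : (riemannZeta β).re * (DirichletCharacter.LFunction chi4 β).re *
        (DirichletCharacter.LFunction χ₂ β).re *
        (DirichletCharacter.LFunction (psi chi4 χ₂) β).re < 0 :=
      mul_neg_of_neg_of_pos (mul_neg_of_neg_of_pos (mul_neg_of_neg_of_pos hz1 ha1) hb1) hc1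
    exact this.le

end h22

/-- sw:4c, from the statement of sw:4b. -/
theorem siegel_of (h4b : ∃ (c : ℝ) (E : ℕ), 0 < c ∧ ∀ (q₁ q₂ : ℕ) [NeZero q₁] [NeZero q₂], 2 ≤ q₁ →
    2 ≤ q₂ → ∀ (χ₁ : DirichletCharacter ℂ q₁) (χ₂ : DirichletCharacter ℂ q₂), χ₁ ^ 2 = 1 →
    χ₂ ^ 2 = 1 → χ₁ ≠ 1 → χ₂ ≠ 1 →
    DirichletCharacter.changeLevel (dvd_mul_right q₁ q₂) χ₁ *
        DirichletCharacter.changeLevel (dvd_mul_left q₂ q₁) χ₂ ≠ 1 →
    ∀ β : ℝ, 7 / 8 < β → β < 1 → (FS χ₁ χ₂ β).re ≤ 0 →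
    c * (1 - β) / ((q₁ : ℝ) * q₂) ^ (E * (1 - β)) ≤ ‖lamS χ₁ χ₂‖)
    (k : ℕ) (hk : 0 < k) : ∃ c : ℝ, 0 < c ∧ ∀ (q : ℕ) [NeZero q], 2 ≤ q →
    ∀ χ : DirichletCharacter ℂ q, χ ≠ 1 → χ ^ 2 = 1 →
    c / (q : ℝ) ^ (1 / (k : ℝ)) ≤ ‖DirichletCharacter.LFunction χ 1‖ := by
  obtain ⟨c₀, E, hc₀, hest⟩ := h4b
  obtain ⟨δ₀, hδ₀, hζ⟩ := zeta_left
  obtain ⟨C, hC, hup⟩ := L_one_upper
  have hk' : (0 : ℝ) < k := by exact_mod_cast hk
  set ε : ℝ := 1 / (2 * (k : ℝ)) with hε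
  have hε0 : 0 < ε := by positivity
  set δ : ℝ := min δ₀ (min (1 / 8) (ε / (E + 1))) with hδ
  have hδ0 : 0 < δ := by
    rw [hδ]; exact lt_min hδ₀ (lt_min (by norm_num) (by positivity))
  have hδ1 : δ ≤ δ₀ := min_le_left _ _
  have hδ8 : δ ≤ 1 / 8 := (min_le_right _ _).trans (min_le_left _ _)
  have hδE : (E : ℝ) * δ ≤ ε := by
    have h1 : δ ≤ ε / (E + 1) := (min_le_right _ _).trans (min_le_right _ _)
    calc (E : ℝ) * δ ≤ (E + 1) * (ε / (E + 1)) := by gcongr; linarith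
      _ = ε := by field_simp
  obtain ⟨q₁, i₁, χ₁, β, hq₁, hsq₁, hne₁, hβ1, hβ2, hFS⟩ := reference hδ0 hδ8
    (fun x hx1 hx2 => hζ x (by linarith) hx2)
  obtain ⟨c₂, hc₂, hprod⟩ := prod_lower (ε := ε) hε0
  have hq₁' : (1 : ℝ) ≤ q₁ := by exact_mod_cast (by omega : 1 ≤ q₁)
  have hL₁ : 0 < ‖DirichletCharacter.LFunction χ₁ 1‖ :=
    norm_pos_iff.2 (DirichletCharacter.LFunction_apply_one_ne_zero hne₁)
  set A := ‖DirichletCharacter.LFunction χ₁ 1‖ with hA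
  have hlog2 : 0 < Real.log 2 := Real.log_pos (by norm_num)
  have hlq₁ : 0 ≤ Real.log q₁ := Real.log_nonneg hq₁'
  set D : ℝ := 1 + Real.log 2 + Real.log q₁ + 1 / ε with hD
  have hD0 : 0 < D := by rw [hD]; positivity
  have hβ0 : 0 < 1 - β := by linarith
  -- the two constants
  set ca : ℝ := c₀ * (1 - β) / ((q₁ : ℝ) ^ ε * (A * (C * D))) with hca
  set cb : ℝ := A * (c₂ * (q₁ : ℝ) ^ (-ε)) ^ 2 with hcb
  have hca0 : 0 < ca := by
    rw [hca]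
    have : 0 < (q₁ : ℝ) ^ ε := Real.rpow_pos_of_pos (by linarith) _
    positivity
  have hcb0 : 0 < cb := by
    rw [hcb]
    have : 0 < (q₁ : ℝ) ^ (-ε) := Real.rpow_pos_of_pos (by linarith) _
    positivity
  refine ⟨min ca cb, lt_min hca0 hcb0, ?_⟩
  intro q _ hq χ hne hsq
  have hq' : (1 : ℝ) ≤ q := by exact_mod_cast (by omega : 1 ≤ q)
  have hq0 : (0 : ℝ) < q := by linarith
  have hqp : 0 < (q : ℝ) ^ (1 / (k : ℝ)) := Real.rpow_pos_of_pos hq0 _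
  have hqe : (q : ℝ) ^ (1 / (k : ℝ)) = (q : ℝ) ^ ε * (q : ℝ) ^ ε := by
    rw [← Real.rpow_add hq0, hε]
    congr 1
    field_simp
    norm_num
  rw [div_le_iff₀ hqp]
  have hqε : 0 < (q : ℝ) ^ ε := Real.rpow_pos_of_pos hq0 _
  have hq₁ε : 0 < (q₁ : ℝ) ^ ε := Real.rpow_pos_of_pos (by linarith) _
  by_cases hpsi : psi χ₁ χ = 1
  · -- same primitive character
    have h1 := same_case χ₁ χ hsq hne₁ hne hpsi
    have h2 := hprod (q₁ * q) (Nat.mul_pos (by omega) (by omega))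
    have h3 : c₂ * (q₁ : ℝ) ^ (-ε) * (q : ℝ) ^ (-ε) ≤
        ∏ p ∈ (q₁ * q).primeFactors, (1 - 1 / (p : ℝ)) := by
      refine le_trans (le_of_eq ?_) h2
      rw [Nat.cast_mul, Real.mul_rpow (by linarith) (by linarith)]
      ring
    have hqn : (q : ℝ) ^ (-ε) * (q : ℝ) ^ ε = 1 := by
      rw [← Real.rpow_add hq0, neg_add_cancel, Real.rpow_zero]
    have h4 : A * (c₂ * (q₁ : ℝ) ^ (-ε) * (q : ℝ) ^ (-ε)) ^ 2 ≤
        ‖DirichletCharacter.LFunction χ 1‖ := by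
      refine le_trans ?_ h1
      have : 0 ≤ c₂ * (q₁ : ℝ) ^ (-ε) * (q : ℝ) ^ (-ε) := by positivity
      gcongr
    calc min ca cb ≤ cb := min_le_right _ _
      _ = A * (c₂ * (q₁ : ℝ) ^ (-ε) * (q : ℝ) ^ (-ε)) ^ 2 * ((q : ℝ) ^ ε * (q : ℝ) ^ ε) := by
          rw [hcb]
          calc _ = A * (c₂ * (q₁ : ℝ) ^ (-ε)) ^ 2 * (((q : ℝ) ^ (-ε) * (q : ℝ) ^ ε) ^ 2) := by
                rw [hqn]; ring
            _ = _ := by ring
      _ ≤ ‖DirichletCharacter.LFunction χ 1‖ * (q : ℝ) ^ (1 / (k : ℝ)) := by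
          rw [hqe]
          gcongr
  · -- Estermann's lemma
    have h1 := hest q₁ q hq₁ hq χ₁ χ hsq₁ hsq hne₁ hne hpsi β (by linarith) hβ2
      (hFS q χ hsq hne hq hpsi)
    have h2 := hup (q₁ * q) (by nlinarith) (psi χ₁ χ) hpsi
    have hQ1 : (1 : ℝ) ≤ (q₁ : ℝ) * q := by nlinarith
    have h3 : ((q₁ : ℝ) * q) ^ (E * (1 - β)) ≤ (q₁ : ℝ) ^ ε * (q : ℝ) ^ ε := by
      rw [← Real.mul_rpow (by linarith) (by linarith)]
      apply Real.rpow_le_rpow_of_exponent_le hQ1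
      calc (E : ℝ) * (1 - β) ≤ E * δ := by gcongr; linarith
        _ ≤ ε := hδE
    have hQp : 0 < ((q₁ : ℝ) * q) ^ (E * (1 - β)) := Real.rpow_pos_of_pos (by linarith) _
    have h4 : 1 + Real.log ((q₁ * q : ℕ) : ℝ) + Real.log 2 ≤ D * (q : ℝ) ^ ε := by
      have h5 : Real.log q ≤ (q : ℝ) ^ ε / ε := Real.log_le_rpow_div hq0.le hε0
      have h6 : (1 : ℝ) ≤ (q : ℝ) ^ ε := Real.one_le_rpow hq' hε0.le
      rw [Nat.cast_mul, Real.log_mul (by linarith) (by linarith), hD]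
      have h7 : (1 + Real.log 2 + Real.log q₁) * 1 ≤ (1 + Real.log 2 + Real.log q₁) * (q : ℝ) ^ ε := by
        gcongr
      have h8 : (q : ℝ) ^ ε / ε = 1 / ε * (q : ℝ) ^ ε := by ring
      rw [h8] at h5
      linarith
    have h5 : ‖lamS χ₁ χ‖ ≤ A * ‖DirichletCharacter.LFunction χ 1‖ * (C * (D * (q : ℝ) ^ ε)) := by
      rw [lamS, norm_mul, norm_mul]
      have : ‖DirichletCharacter.LFunction (psi χ₁ χ) 1‖ ≤ C * (D * (q : ℝ) ^ ε) :=
        h2.trans (by gcongr)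
      gcongr
    have h6 : c₀ * (1 - β) ≤ ‖lamS χ₁ χ‖ * ((q₁ : ℝ) * q) ^ (E * (1 - β)) := by
      rwa [div_le_iff₀ hQp] at h1
    have h7 : c₀ * (1 - β) ≤ (A * ‖DirichletCharacter.LFunction χ 1‖ * (C * (D * (q : ℝ) ^ ε))) *
        ((q₁ : ℝ) ^ ε * (q : ℝ) ^ ε) := by
      refine h6.trans ?_
      gcongr
    calc min ca cb ≤ ca := min_le_left _ _
      _ ≤ ‖DirichletCharacter.LFunction χ 1‖ * ((q : ℝ) ^ ε * (q : ℝ) ^ ε) := by
          rw [hca, div_le_iff₀ (by positivity)]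
          calc c₀ * (1 - β) ≤ _ := h7
            _ = _ := by ring
      _ = _ := by rw [hqe]

end Pool.Agent.helper74.TG
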